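import Pool.Agent.Helper86.QA.St4

/-!
# Project QD, part A, module TDS (discreteness of the deformed group)
-/

set_option autoImplicit false

open MeasureTheory Matrix Set Topology Filter
open scoped ENNReal ComplexConjugate ComplexOrder

namespace Pool.Agent.Helper76.QA

open Pool.Agent.Helper86.QA Pool.Agent.Helper20
open Pool.Agent.Helper35.PM (hs IsDiscrete density)
open Pool.Agent.Helper20.QD (Fuch Qp Qinf sph act orb fr mob)

private theorem tr_hs (M : Mat) : (M * Mᴴ).trace = (hs M : ℂ) := by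
  simp only [Matrix.trace, Matrix.diag, Matrix.mul_apply, Matrix.conjTranspose_apply, hs,
    Complex.ofReal_sum, Complex.ofReal_pow]
  refine Finset.sum_congr rfl fun i _ => Finset.sum_congr rfl fun j _ => ?_
  exact Complex.mul_conj' (M i j)

private theorem entry_le (M : Mat) (i j : Fin 2) : ‖M i j‖ ^ 2 ≤ hs M := by
  unfold hs
  have h1 : ‖M i j‖ ^ 2 ≤ ∑ j, ‖M i j‖ ^ 2 :=
    Finset.single_le_sum (f := fun j => ‖M i j‖ ^ 2) (fun _ _ => sq_nonneg _) (Finset.mem_univ j)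
  have h2 : ∑ j, ‖M i j‖ ^ 2 ≤ ∑ i, ∑ j, ‖M i j‖ ^ 2 :=
    Finset.single_le_sum (f := fun i => ∑ j, ‖M i j‖ ^ 2)
      (fun _ _ => Finset.sum_nonneg fun _ _ => sq_nonneg _) (Finset.mem_univ i)
  exact h1.trans h2

private theorem orb_bd (M : Mat) (hM : 0 < hs M) (i j : Fin 2) :
    ‖density (M * Mᴴ) i j‖ ≤ 1 := by
  unfold density
  rw [tr_hs, Matrix.smul_apply, smul_eq_mul, norm_mul, norm_inv, Complex.norm_real,
    Real.norm_eq_abs, abs_of_pos hM, inv_mul_le_iff₀ hM, mul_one, Matrix.mul_apply]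
  calc ‖∑ k, M i k * Mᴴ k j‖ ≤ ∑ k, ‖M i k * Mᴴ k j‖ := norm_sum_le _ _
    _ = ∑ k, ‖M i k‖ * ‖M j k‖ := by
        refine Finset.sum_congr rfl fun k _ => ?_
        rw [norm_mul, Matrix.conjTranspose_apply, norm_star]
    _ ≤ hs M := by
        unfold hs
        rw [Fin.sum_univ_two, Fin.sum_univ_two, Fin.sum_univ_two, Fin.sum_univ_two]
        fin_cases i <;> fin_cases j <;> simp only [Fin.zero_eta, Fin.mk_one] <;>
          nlinarith [sq_nonneg (‖M 0 0‖ - ‖M 1 0‖), sq_nonneg (‖M 0 1‖ - ‖M 1 1‖),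
            sq_nonneg ‖M 0 0‖, sq_nonneg ‖M 0 1‖, sq_nonneg ‖M 1 0‖, sq_nonneg ‖M 1 1‖]

private theorem cpt {Γ : Type} (U : Ultrafilter Γ) (F : Γ → Mat) (c : ℝ)
    (h : ∀ᶠ γ in (U : Filter Γ), ∀ i j, ‖F γ i j‖ ≤ c) :
    ∃ x : Mat, Tendsto F (U : Filter Γ) (𝓝 x) := by
  have hK : IsCompact {M : Mat | ∀ i j, ‖M i j‖ ≤ c} := by
    have h1 : IsCompact (Set.pi univ fun _ : Fin 2 => Set.pi univ fun _ : Fin 2 =>
        Metric.closedBall (0 : ℂ) c) :=
      isCompact_univ_pi fun _ => isCompact_univ_pi fun _ => isCompact_closedBall 0 c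
    have h2 : {M : Mat | ∀ i j, ‖M i j‖ ≤ c} = (Set.pi univ fun _ : Fin 2 =>
        Set.pi univ fun _ : Fin 2 => Metric.closedBall (0 : ℂ) c) :=
      Set.ext fun M => ⟨fun h i _ j _ => mem_closedBall_zero_iff.2 (h i j),
        fun h i j => mem_closedBall_zero_iff.1 (h i trivial j trivial)⟩
    rw [h2]
    exact h1
  obtain ⟨x, -, hx⟩ := hK.ultrafilter_le_nhds (U.map F) (by
    rw [Filter.le_principal_iff]
    exact h)
  exact ⟨x, hx⟩

private theorem hs_cont : Continuous fun M : Mat => hs M := by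
  unfold hs
  exact continuous_finsetSum _ fun i _ => continuous_finsetSum _ fun j _ =>
    (continuous_id.matrix_elem i j).norm.pow 2

/-- Module TDS. -/
theorem hTDS (hLFR : QD.StLFR) (hLQC : QD.StLQC) (hLMX : QD.StLMX) (hWHM : StWHM) : StTDS := by
  intro Γ _ σ ρ w hT X
  by_contra hfin
  have hinf : {γ : Γ | hs (ρ γ : Mat) ≤ X}.Infinite := hfin
  obtain ⟨hw1, hw2, hwc, hwb, hsc, hweq⟩ := hWHM w hT.ho
  have heq := hweq Γ σ ρ hT
  have hneb : (cofinite ⊓ 𝓟 {γ : Γ | hs (ρ γ : Mat) ≤ X}).NeBot :=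
    Filter.cofinite_inf_principal_neBot_iff.2 hinf
  obtain ⟨U, hU⟩ : ∃ U : Ultrafilter Γ,
      (U : Filter Γ) ≤ cofinite ⊓ 𝓟 {γ : Γ | hs (ρ γ : Mat) ≤ X} :=
    ⟨Ultrafilter.of _, Ultrafilter.of_le _⟩
  have hUc : (U : Filter Γ) ≤ cofinite := hU.trans inf_le_left
  have hUS : ∀ᶠ γ in (U : Filter Γ), hs (ρ γ : Mat) ≤ X :=
    Filter.le_principal_iff.1 (hU.trans inf_le_right)
  -- the norms for `σ`
  have hσ : Tendsto (fun γ => hs (σ γ : Mat)) (U : Filter Γ) atTop := by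
    refine tendsto_atTop.2 fun b => ?_
    have h1 : {γ : Γ | hs (σ γ : Mat) ≤ b}ᶜ ∈ (U : Filter Γ) :=
      hUc (hT.fs.discrete b).compl_mem_cofinite
    filter_upwards [h1] with γ hγ
    have h2 : ¬ hs (σ γ : Mat) ≤ b := hγ
    exact (not_le.1 h2).le
  -- limits
  obtain ⟨g, hg⟩ := cpt U (fun γ => (ρ γ : Mat)) (Real.sqrt X) (by
    filter_upwards [hUS] with γ hγ i j
    exact Real.le_sqrt_of_sq_le ((entry_le _ i j).trans hγ))
  have hgd : g.det = 1 := by
    have h1 : Tendsto (fun γ => (ρ γ : Mat).det) (U : Filter Γ) (𝓝 g.det) :=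
      ((Continuous.matrix_det continuous_id).tendsto g).comp hg
    have h2 : Tendsto (fun γ => (ρ γ : Mat).det) (U : Filter Γ) (𝓝 1) := by
      have : (fun γ => (ρ γ : Mat).det) = fun _ => (1 : ℂ) := funext fun γ => (ρ γ).det_coe
      rw [this]
      exact tendsto_const_nhds
    exact tendsto_nhds_unique h1 h2
  obtain ⟨gS, rfl⟩ : ∃ gS : SL, (gS : Mat) = g := ⟨⟨g, hgd⟩, rfl⟩
  have hpos : ∀ A : SL, 0 < hs (A : Mat) := fun A => by
    have := hLMX.1 A
    linarith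
  obtain ⟨a, ha⟩ := cpt U (fun γ => density ((σ γ : Mat) * (σ γ : Mat)ᴴ)) 1
    (Eventually.of_forall fun γ i j => orb_bd _ (hpos _) i j)
  obtain ⟨r, hr⟩ := cpt U (fun γ => density ((((σ γ)⁻¹ : SL) : Mat) * (((σ γ)⁻¹ : SL) : Mat)ᴴ)) 1
    (Eventually.of_forall fun γ i j => orb_bd _ (hpos _) i j)
  -- convergence of `act (σ γ) Q`
  have hact : ∀ Q ∈ sph, Q ≠ r → Tendsto (fun γ => act (σ γ) Q) (U : Filter Γ) (𝓝 a) := by
    intro Q hQ hQr
    have hf : Tendsto (fun γ => fr (density ((((σ γ)⁻¹ : SL) : Mat) *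
        (((σ γ)⁻¹ : SL) : Mat)ᴴ)) Q) (U : Filter Γ) (𝓝 (fr r Q)) := by
      have h1 : Continuous fun M : Mat => fr M Q := hs_cont.comp (continuous_id.sub continuous_const)
      exact (h1.tendsto r).comp hr
    have hf0 : 0 < fr r Q := by
      rcases (hLFR.1 r Q).1.lt_or_eq with h | h
      · exact h
      · exact absurd ((hLFR.1 r Q).2.2 h.symm).symm hQr
    have hbig : Tendsto (fun γ => hs (σ γ : Mat) * (hs (σ γ : Mat) *
        fr (density ((((σ γ)⁻¹ : SL) : Mat) * (((σ γ)⁻¹ : SL) : Mat)ᴴ)) Q))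
        (U : Filter Γ) atTop := hσ.atTop_mul_atTop₀ (hσ.atTop_mul_pos hf0 hf)
    have hz : Tendsto (fun γ => 4 / (hs (σ γ : Mat) * (hs (σ γ : Mat) *
        fr (density ((((σ γ)⁻¹ : SL) : Mat) * (((σ γ)⁻¹ : SL) : Mat)ᴴ)) Q)))
        (U : Filter Γ) (𝓝 0) := hbig.const_div_atTop 4
    have hfr : Tendsto (fun γ => fr (density ((σ γ : Mat) * (σ γ : Mat)ᴴ)) (act (σ γ) Q))
        (U : Filter Γ) (𝓝 0) := by
      refine squeeze_zero' (Eventually.of_forall fun γ => (hLFR.1 _ _).1) ?_ hz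
      filter_upwards [hf.eventually (lt_mem_nhds hf0)] with γ hγ
      obtain ⟨h1, h2, h3⟩ := hLMX.2.2.2.2.1 (σ γ) Q hQ
      refine h2.trans ?_
      have hp := hpos (σ γ)
      rw [div_le_div_iff₀ (mul_pos hp h1) (mul_pos hp (mul_pos hp hγ))]
      nlinarith [mul_le_mul_of_nonneg_left h3 hp.le]
    refine tendsto_pi_nhds.2 fun i => tendsto_pi_nhds.2 fun j => ?_
    have h4 : Tendsto (fun γ => density ((σ γ : Mat) * (σ γ : Mat)ᴴ) i j) (U : Filter Γ)
        (𝓝 (a i j)) := ((continuous_id.matrix_elem i j).tendsto a).comp ha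
    have h5 : Tendsto (fun γ => density ((σ γ : Mat) * (σ γ : Mat)ᴴ) i j - act (σ γ) Q i j)
        (U : Filter Γ) (𝓝 0) := by
      rw [tendsto_zero_iff_norm_tendsto_zero]
      have h6 : Tendsto (fun γ => Real.sqrt (fr (density ((σ γ : Mat) * (σ γ : Mat)ᴴ))
          (act (σ γ) Q))) (U : Filter Γ) (𝓝 0) := by
        have := (Real.continuous_sqrt.tendsto 0).comp hfr
        rwa [Real.sqrt_zero] at this
      refine squeeze_zero (fun γ => norm_nonneg _) (fun γ => ?_) h6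
      exact Real.le_sqrt_of_sq_le (hLFR.2.2.1 _ _ i j)
    have h7 := h4.sub h5
    rw [sub_zero] at h7
    refine h7.congr fun γ => ?_
    ring
  -- three points of the sphere
  have hQp := hLQC.2.2.1
  have hinj : Function.Injective Qp := hLQC.2.2.2.2.2.2.1
  have hsph : ∀ A : SL, ∀ Q ∈ sph, act A Q ∈ sph := hLQC.2.2.2.2.2.2.2.2.1
  obtain ⟨Q1, Q2, hQ1, hQ2, h12, h1r, h2r⟩ : ∃ Q1 Q2 : Mat, Q1 ∈ sph ∧ Q2 ∈ sph ∧ Q1 ≠ Q2 ∧
      Q1 ≠ r ∧ Q2 ≠ r := by
    by_cases h0 : Qp 0 = r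
    · refine ⟨Qp 1, Qp 2, (hQp 1).1, (hQp 2).1, fun h => ?_, fun h => ?_, fun h => ?_⟩
      · have := hinj h; norm_num at this
      · have := hinj (h.trans h0.symm); norm_num at this
      · have := hinj (h.trans h0.symm); norm_num at this
    by_cases h1 : Qp 1 = r
    · refine ⟨Qp 0, Qp 2, (hQp 0).1, (hQp 2).1, fun h => ?_, h0, fun h => ?_⟩
      · have := hinj h; norm_num at this
      · have := hinj (h.trans h1.symm); norm_num at this
    · exact ⟨Qp 0, Qp 1, (hQp 0).1, (hQp 1).1, fun h => by have := hinj h; norm_num at this,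
        h0, h1⟩
  have has : a ∈ sph := hsc.isClosed.mem_of_tendsto (hact Q1 hQ1 h1r)
    (Eventually.of_forall fun γ => hsph (σ γ) Q1 hQ1)
  -- the limit map is constant
  have hconst : ∀ Q ∈ sph, Q ≠ r → act gS (wh w Q) = wh w a := by
    intro Q hQ hQr
    have hR : wh w Q ∈ sph := hwb.mapsTo hQ
    have h1 : Tendsto (fun γ => wh w (act (σ γ) Q)) (U : Filter Γ) (𝓝 (wh w a)) := by
      have h2 : Tendsto (fun γ => act (σ γ) Q) (U : Filter Γ) (𝓝[sph] a) :=
        tendsto_nhdsWithin_iff.2 ⟨hact Q hQ hQr, Eventually.of_forall fun γ => hsph (σ γ) Q hQ⟩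
      exact (hwc a has).tendsto.comp h2
    have h3 : Tendsto (fun γ => act (ρ γ) (wh w Q)) (U : Filter Γ)
        (𝓝 (act gS (wh w Q))) := by
      have hc : Continuous fun M : Mat => M * wh w Q * Mᴴ :=
        (continuous_id.matrix_mul continuous_const).matrix_mul continuous_id.matrix_conjTranspose
      have hne : ((gS : Mat) * wh w Q * (gS : Mat)ᴴ).trace ≠ 0 := by
        intro h0
        have h5 := (hLMX.2.2.2.2.1 gS (wh w Q) hR).1
        rw [h0, Complex.zero_re] at h5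
        exact lt_irrefl _ h5
      have h4 : ContinuousAt (fun M : Mat => density (M * wh w Q * Mᴴ)) (gS : Mat) := by
        unfold density
        exact (ContinuousAt.inv₀ hc.matrix_trace.continuousAt hne).smul hc.continuousAt
      exact h4.tendsto.comp hg
    have h5 : (fun γ => act (ρ γ) (wh w Q)) = fun γ => wh w (act (σ γ) Q) :=
      funext fun γ => (heq γ Q hQ).symm
    rw [h5] at h3
    exact tendsto_nhds_unique h3 h1
  have hfinal : ∀ P ∈ sph, act gS⁻¹ (act gS P) = P := by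
    intro P hP
    have h1 := hLQC.2.2.2.2.2.2.2.2.2.2 gS⁻¹ gS P hP.1 hP.2.1
    have h2 : gS⁻¹ * gS = 1 := inv_mul_cancel gS
    rw [← h1, h2]
    unfold act density
    rw [Matrix.SpecialLinearGroup.coe_one, Matrix.one_mul, Matrix.conjTranspose_one, Matrix.mul_one,
      hP.2.1, inv_one, one_smul]
  have hR1 : wh w Q1 ∈ sph := hwb.mapsTo hQ1
  have hR2 : wh w Q2 ∈ sph := hwb.mapsTo hQ2
  have h5 : wh w Q1 = wh w Q2 := by
    rw [← hfinal _ hR1, ← hfinal _ hR2, hconst Q1 hQ1 h1r, hconst Q2 hQ2 h2r]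
  exact h12 (hwb.injOn hQ1 hQ2 h5)

end Pool.Agent.Helper76.QA
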